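import Mathlib
import Pool.Agent.H266R3.LDef

set_option autoImplicit false

open Pool.Agent.H266R3.LF

open scoped ENNReal InnerProductSpace

namespace Pool.Agent.Results.MP_6bd626_an.NoEquivariantProjection

/-- A `G`-space `X`, given by the homomorphism `ρ` from `G` into the group of bounded linear
automorphisms of `X`, has the `G`-equivariant dual lifting property: there is a bounded linear
projection `P` of `Lip_0(X)` onto `X*` with `P (f ∘ g⁻¹) = (P f) ∘ g⁻¹`. -/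
def HasEquivariantDualLifting {G X : Type} [Group G] [NormedAddCommGroup X] [NormedSpace ℝ X]
    (ρ : G →* (X ≃L[ℝ] X)) : Prop :=
  ∃ P : Lip0 X (0 : X) →L[ℝ] StrongDual ℝ X,
    (∀ (φ : StrongDual ℝ X) (f : Lip0 X (0 : X)), (∀ x, f.fn x = φ x) → P f = φ) ∧
    ∀ (g : G) (f f' : Lip0 X (0 : X)), (∀ x, f'.fn x = f.fn (ρ g⁻¹ x)) →
      ∀ x, P f' x = P f (ρ g⁻¹ x)

/-- The natural action of the group of surjective linear isometries of `X`. -/
def isometryAction (X : Type) [NormedAddCommGroup X] [NormedSpace ℝ X] :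
    (X ≃ₗᵢ[ℝ] X) →* (X ≃L[ℝ] X) where
  toFun g := g.toContinuousLinearEquiv
  map_one' := rfl
  map_mul' _ _ := rfl

/-- The Hilbert space `ℓ_2`. -/
abbrev H : Type := lp (fun _ : ℕ => ℝ) 2

section Lip

variable {K : Type*} [NormedAddCommGroup K] [NormedSpace ℝ K]

/-- the functions used -/
noncomputable def F (u : H) (T : H →L[ℝ] K) (x : H) : ℝ := ⟪u, x⟫_ℝ * ‖T x‖ ^ 2 / ‖x‖ ^ 2

lemma ratio_le {T : H →L[ℝ] K} (hT : ‖T‖ ≤ 1) (x : H) : ‖T x‖ ^ 2 / ‖x‖ ^ 2 ≤ 1 := by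
  have h1 : ‖T x‖ ≤ ‖x‖ := by
    refine (T.le_opNorm x).trans ?_
    have := mul_le_mul_of_nonneg_right hT (norm_nonneg x)
    rwa [one_mul] at this
  refine div_le_one_of_le₀ ?_ (by positivity)
  gcongr

lemma ratio_diff {T : H →L[ℝ] K} (hT : ‖T‖ ≤ 1) {x y : H} (hx : x ≠ 0) (hy : y ≠ 0) :
    ‖x‖ * |‖T x‖ ^ 2 / ‖x‖ ^ 2 - ‖T y‖ ^ 2 / ‖y‖ ^ 2| ≤ 4 * ‖x - y‖ := by
  have hxp : 0 < ‖x‖ := norm_pos_iff.2 hx
  have hyp : 0 < ‖y‖ := norm_pos_iff.2 hy
  have hTle : ∀ z, ‖T z‖ ≤ ‖z‖ := by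
    intro z
    refine (T.le_opNorm z).trans ?_
    have := mul_le_mul_of_nonneg_right hT (norm_nonneg z)
    rwa [one_mul] at this
  set a : ℝ := ‖T x‖ / ‖x‖ with ha
  set b : ℝ := ‖T y‖ / ‖y‖ with hb
  have ha0 : 0 ≤ a := by positivity
  have hb0 : 0 ≤ b := by positivity
  have ha1 : a ≤ 1 := div_le_one_of_le₀ (hTle x) hxp.le
  have hb1 : b ≤ 1 := div_le_one_of_le₀ (hTle y) hyp.le
  have e1 : ‖T x‖ ^ 2 / ‖x‖ ^ 2 - ‖T y‖ ^ 2 / ‖y‖ ^ 2 = (a - b) * (a + b) := by
    rw [ha, hb]; ring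
  have h2 : ‖x‖ * |a - b| ≤ 2 * ‖x - y‖ := by
    have e2 : ‖x‖ * (a - b) = ‖T x‖ - ‖T ((‖x‖ / ‖y‖) • y)‖ := by
      rw [map_smul, norm_smul, Real.norm_eq_abs, abs_of_pos (by positivity), ha, hb]
      field_simp
    have e5 : ‖x‖ * |a - b| = |‖x‖ * (a - b)| := by rw [abs_mul, abs_of_pos hxp]
    rw [e5, e2]
    refine (abs_norm_sub_norm_le _ _).trans ?_
    rw [← map_sub]
    refine (hTle _).trans ?_
    have e3 : x - (‖x‖ / ‖y‖) • y = (x - y) + ((‖y‖ - ‖x‖) / ‖y‖) • y := by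
      have : ((‖y‖ - ‖x‖) / ‖y‖) = 1 - ‖x‖ / ‖y‖ := by field_simp
      rw [this, sub_smul, one_smul]; abel
    rw [e3]
    refine (norm_add_le _ _).trans ?_
    have e4 : ‖((‖y‖ - ‖x‖) / ‖y‖) • y‖ = |‖y‖ - ‖x‖| := by
      rw [norm_smul, Real.norm_eq_abs, abs_div, abs_of_pos hyp]
      field_simp
    rw [e4, norm_sub_rev]
    have := abs_norm_sub_norm_le y x
    linarith
  rw [e1, abs_mul]
  have h3 : |a + b| ≤ 2 := by rw [abs_of_nonneg (by positivity)]; linarith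
  calc ‖x‖ * (|a - b| * |a + b|) = (‖x‖ * |a - b|) * |a + b| := by ring
    _ ≤ (2 * ‖x - y‖) * 2 := by gcongr
    _ = 4 * ‖x - y‖ := by ring

lemma F_lip {u : H} (hu : ‖u‖ ≤ 1) {T : H →L[ℝ] K} (hT : ‖T‖ ≤ 1) (x y : H) :
    |F u T x - F u T y| ≤ 5 * dist x y := by
  have hin : ∀ z : H, |⟪u, z⟫_ℝ| ≤ ‖z‖ := by
    intro z
    refine (abs_real_inner_le_norm u z).trans ?_
    have := mul_le_mul_of_nonneg_right hu (norm_nonneg z)
    rwa [one_mul] at this
  have hF0 : F u T 0 = 0 := by simp [F]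
  have hFle : ∀ z, |F u T z| ≤ ‖z‖ := by
    intro z
    have e : F u T z = ⟪u, z⟫_ℝ * (‖T z‖ ^ 2 / ‖z‖ ^ 2) := by unfold F; ring
    rw [e, abs_mul, abs_of_nonneg (a := ‖T z‖ ^ 2 / ‖z‖ ^ 2) (by positivity)]
    calc |⟪u, z⟫_ℝ| * (‖T z‖ ^ 2 / ‖z‖ ^ 2) ≤ ‖z‖ * 1 :=
          mul_le_mul (hin z) (ratio_le hT z) (by positivity) (norm_nonneg z)
      _ = ‖z‖ := mul_one _
  rw [dist_eq_norm]
  rcases eq_or_ne x 0 with rfl | hx
  · rw [hF0, zero_sub, abs_neg, zero_sub, norm_neg]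
    linarith [hFle y, norm_nonneg y]
  rcases eq_or_ne y 0 with rfl | hy
  · rw [hF0, sub_zero, sub_zero]
    linarith [hFle x, norm_nonneg x]
  have e : F u T x - F u T y = ⟪u, x⟫_ℝ * (‖T x‖ ^ 2 / ‖x‖ ^ 2 - ‖T y‖ ^ 2 / ‖y‖ ^ 2)
      + ⟪u, x - y⟫_ℝ * (‖T y‖ ^ 2 / ‖y‖ ^ 2) := by
    rw [inner_sub_right]; unfold F; ring
  rw [e]
  refine (abs_add_le _ _).trans ?_
  rw [abs_mul, abs_mul]
  have h1 : |⟪u, x⟫_ℝ| * |‖T x‖ ^ 2 / ‖x‖ ^ 2 - ‖T y‖ ^ 2 / ‖y‖ ^ 2| ≤ 4 * ‖x - y‖ :=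
    (mul_le_mul_of_nonneg_right (hin x) (abs_nonneg _)).trans (ratio_diff hT hx hy)
  have h2 : |⟪u, x - y⟫_ℝ| * |‖T y‖ ^ 2 / ‖y‖ ^ 2| ≤ ‖x - y‖ * 1 := by
    refine mul_le_mul (hin _) ?_ (abs_nonneg _) (norm_nonneg _)
    rw [abs_of_nonneg (by positivity)]
    exact ratio_le hT y
  linarith

/-- the functions as elements of `Lip_0` -/
noncomputable def L (u : H) (T : H →L[ℝ] K) (hu : ‖u‖ ≤ 1) (hT : ‖T‖ ≤ 1) : Lip0 H (0 : H) :=
  Lip0.mk (F u T) (by simp [F]) 5 (by norm_num) (F_lip hu hT)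

lemma L_fn (u : H) (T : H →L[ℝ] K) (hu : ‖u‖ ≤ 1) (hT : ‖T‖ ≤ 1) (x : H) :
    (L u T hu hT).fn x = ⟪u, x⟫_ℝ * ‖T x‖ ^ 2 / ‖x‖ ^ 2 := rfl

end Lip

section Ops

lemma summable_sq (x : H) : Summable fun i => (x i) ^ 2 := by
  have := (lp.memℓp x).summable (by norm_num)
  simpa using this

lemma norm_sq (x : H) : ‖x‖ ^ 2 = ∑' i, (x i) ^ 2 := by
  have := lp.norm_rpow_eq_tsum (p := 2) (by norm_num) x
  simpa using this

lemma memℓp_of_sq {f : ℕ → ℝ} (h : Summable fun i => f i ^ 2) : Memℓp f 2 := by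
  apply memℓp_gen
  simpa using h

lemma ind_summable (A : Set ℕ) (x : H) : Summable (A.indicator fun i => (x i) ^ 2) :=
  (summable_sq x).indicator A

/-- the sum of squares over a set of coordinates -/
noncomputable def S (A : Set ℕ) (x : H) : ℝ := ∑' i, A.indicator (fun i => (x i) ^ 2) i

lemma S_univ (x : H) : S Set.univ x = ‖x‖ ^ 2 := by
  rw [norm_sq]; simp [S]

lemma S_union {A B : Set ℕ} (h : Disjoint A B) (x : H) : S (A ∪ B) x = S A x + S B x := by
  unfold S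
  rw [← (ind_summable A x).tsum_add (ind_summable B x), Set.indicator_union_of_disjoint h]

lemma S_singleton (k : ℕ) (x : H) : S {k} x = (x k) ^ 2 := by
  unfold S
  rw [tsum_eq_single k]
  · simp
  · intro j hj
    simp [hj]

lemma S_le (A : Set ℕ) (x : H) : S A x ≤ ‖x‖ ^ 2 := by
  rw [norm_sq]
  exact (ind_summable A x).tsum_le_tsum
    (fun i => Set.indicator_le_self' (fun _ _ => sq_nonneg _) i) (summable_sq x)

/-- truncation to a set of coordinates -/
lemma exists_trunc (A : Set ℕ) : ∃ T : H →L[ℝ] H, ‖T‖ ≤ 1 ∧ ∀ x, ‖T x‖ ^ 2 = S A x := by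
  have hsq : ∀ x : H, (fun i => (A.indicator (⇑x) i) ^ 2) = A.indicator fun i => (x i) ^ 2 := by
    intro x
    ext i
    by_cases hi : i ∈ A <;> simp [hi]
  have hm : ∀ x : H, Memℓp (A.indicator ⇑x) 2 := by
    intro x
    apply memℓp_of_sq
    rw [hsq]
    exact ind_summable A x
  let T0 : H →ₗ[ℝ] H :=
    { toFun := fun x => ⟨A.indicator ⇑x, hm x⟩
      map_add' := fun x y => by
        ext i
        show A.indicator (⇑(x + y)) i = A.indicator (⇑x) i + A.indicator (⇑y) i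
        rw [lp.coeFn_add, Set.indicator_add']
        rfl
      map_smul' := fun c x => by
        ext i
        show A.indicator (⇑(c • x)) i = c • A.indicator (⇑x) i
        by_cases hi : i ∈ A <;> simp [hi] }
  have hT0 : ∀ x, ‖T0 x‖ ^ 2 = S A x := by
    intro x
    rw [norm_sq]
    show ∑' i, (A.indicator (⇑x) i) ^ 2 = _
    rw [hsq]
    rfl
  refine ⟨T0.mkContinuous 1 (fun x => ?_), LinearMap.mkContinuous_norm_le _ zero_le_one _, hT0⟩
  rw [one_mul, ← pow_le_pow_iff_left₀ (norm_nonneg _) (norm_nonneg _) two_ne_zero, hT0]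
  exact S_le A x

/-- the isometry given by a permutation of the coordinates -/
lemma exists_perm (σ : Equiv.Perm ℕ) : ∃ g : H ≃ₗᵢ[ℝ] H, ∀ x i, (g.symm x) i = x (σ i) := by
  have hm : ∀ (τ : Equiv.Perm ℕ) (x : H), Memℓp (fun i => x (τ i)) 2 := by
    intro τ x
    apply memℓp_of_sq
    exact (τ.summable_iff (f := fun i => (x i) ^ 2)).2 (summable_sq x)
  let g : H ≃ₗᵢ[ℝ] H :=
    { toFun := fun x => ⟨fun i => x (σ.symm i), hm σ.symm x⟩
      invFun := fun x => ⟨fun i => x (σ i), hm σ x⟩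
      left_inv := fun x => by
        ext i
        show x (σ.symm (σ i)) = x i
        rw [Equiv.symm_apply_apply]
      right_inv := fun x => by
        ext i
        show x (σ (σ.symm i)) = x i
        rw [Equiv.apply_symm_apply]
      map_add' := fun x y => by
        ext i
        rfl
      map_smul' := fun c x => by
        ext i
        rfl
      norm_map' := fun x => by
        rw [← pow_left_inj₀ (norm_nonneg _) (norm_nonneg _) two_ne_zero, norm_sq, norm_sq]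
        exact σ.symm.tsum_eq (fun i => (x i) ^ 2) }
  exact ⟨g, fun x i => rfl⟩

/-- Two infinite sets with infinite complements not containing `0` are related by a permutation
fixing `0`. -/
lemma exists_perm_sets {A B : Set ℕ} (hA : A.Infinite) (hA' : Aᶜ.Infinite) (hB : B.Infinite)
    (hB' : Bᶜ.Infinite) (hA0 : 0 ∉ A) (hB0 : 0 ∉ B) :
    ∃ σ : Equiv.Perm ℕ, σ 0 = 0 ∧ σ ⁻¹' B = A := by
  classical
  have := hA.to_subtype
  have := hA'.to_subtype
  have := hB.to_subtype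
  have := hB'.to_subtype
  obtain ⟨e⟩ := nonempty_equiv_of_countable (α := A) (β := B)
  obtain ⟨e'⟩ := nonempty_equiv_of_countable (α := (Aᶜ : Set ℕ)) (β := (Bᶜ : Set ℕ))
  set σ : Equiv.Perm ℕ := (Equiv.Set.sumCompl A).symm.trans
    ((e.sumCongr e').trans (Equiv.Set.sumCompl B)) with hσ
  have h1 : ∀ i, σ i ∈ B ↔ i ∈ A := by
    intro i
    by_cases hi : i ∈ A
    · have : σ i = e ⟨i, hi⟩ := by
        simp [hσ, Equiv.Set.sumCompl_symm_apply_of_mem hi]
      rw [this]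
      exact ⟨fun _ => hi, fun _ => (e ⟨i, hi⟩).2⟩
    · have : σ i = e' ⟨i, hi⟩ := by
        simp [hσ, Equiv.Set.sumCompl_symm_apply_of_notMem hi]
      rw [this]
      exact ⟨fun h => absurd h (e' ⟨i, hi⟩).2, fun h => absurd h hi⟩
  have h0 : σ 0 ∉ B := fun h => hA0 ((h1 0).1 h)
  refine ⟨σ.trans (Equiv.swap (σ 0) 0), by simp, ?_⟩
  ext i
  rw [Set.mem_preimage, Equiv.trans_apply, ← h1]
  rcases eq_or_ne (σ i) (σ 0) with h | h
  · rw [h, Equiv.swap_apply_left]
    exact ⟨fun h' => absurd h' hB0, fun h' => absurd h' h0⟩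
  · rcases eq_or_ne (σ i) 0 with h' | h'
    · rw [h', Equiv.swap_apply_right]
      exact ⟨fun h' => absurd h' h0, fun h' => absurd h' hB0⟩
    · rw [Equiv.swap_apply_of_ne_of_ne h h']

end Ops

section Main

/-- unit vectors -/
noncomputable def e (i : ℕ) : H := lp.single 2 i (1 : ℝ)

lemma inner_e (i : ℕ) (x : H) : ⟪e i, x⟫_ℝ = x i := by
  rw [e, lp.inner_single_left]; simp

lemma norm_e (i : ℕ) : ‖e i‖ = 1 := by
  rw [e, lp.norm_single (by norm_num)]; simp

lemma e_apply (i j : ℕ) : e i j = if j = i then 1 else 0 := by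
  rw [e, lp.single_apply, Pi.single_apply]

/-- A set of coordinates which is infinite, with infinite complement, and does not contain `0`. -/
structure Good (A : Set ℕ) : Prop where
  inf : A.Infinite
  inf' : Aᶜ.Infinite
  zero : 0 ∉ A

theorem main (P : Lip0 H (0 : H) →L[ℝ] StrongDual ℝ H)
    (hP1 : ∀ (φ : StrongDual ℝ H) (f : Lip0 H (0 : H)), (∀ x, f.fn x = φ x) → P f = φ)
    (hP2 : ∀ (g : H ≃ₗᵢ[ℝ] H) (f f' : Lip0 H (0 : H)), (∀ x, f'.fn x = f.fn (g.symm x)) →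
      ∀ x, P f' x = P f (g.symm x)) : False := by
  choose T hTn hTs using exists_trunc
  set LA : Set ℕ → Lip0 H (0 : H) := fun A => L (e 0) (T A) (norm_e 0).le (hTn A) with hLA
  have LA_fn : ∀ A x, (LA A).fn x = x 0 * S A x / ‖x‖ ^ 2 := by
    intro A x
    rw [hLA, L_fn, inner_e, hTs]
  set m : Set ℕ → ℝ := fun A => P (LA A) (e 0) with hm
  have m_union : ∀ {A B : Set ℕ}, Disjoint A B → m (A ∪ B) = m A + m B := by
    intro A B h
    have h1 : LA (A ∪ B) = LA A + LA B := by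
      apply Lip0.ext
      intro x
      rw [Lip0.fn_add, LA_fn, LA_fn, LA_fn, S_union h]; ring
    show P (LA (A ∪ B)) (e 0) = P (LA A) (e 0) + P (LA B) (e 0)
    rw [h1, map_add]; rfl
  have m_univ : m Set.univ = 1 := by
    have h1 : P (LA Set.univ) = innerSL ℝ (e 0) := by
      apply hP1
      intro x
      rw [LA_fn, S_univ, innerSL_apply_apply, inner_e]
      rcases eq_or_ne x 0 with rfl | hx
      · simp
      · have : ‖x‖ ^ 2 ≠ 0 := pow_ne_zero _ (norm_ne_zero_iff.2 hx)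
        rw [mul_div_assoc, div_self this, mul_one]
    show P (LA Set.univ) (e 0) = 1
    rw [h1, innerSL_apply_apply, inner_e, e_apply, if_pos rfl]
  have m_perm : ∀ (σ : Equiv.Perm ℕ) (B : Set ℕ), σ 0 = 0 → m B = m (σ ⁻¹' B) := by
    intro σ B hσ
    obtain ⟨g, hg⟩ := exists_perm σ
    have h1 := hP2 g (LA (σ ⁻¹' B)) (LA B) (by
      intro x
      rw [LA_fn, LA_fn, hg, hσ, g.symm.norm_map]
      have : S (σ ⁻¹' B) (g.symm x) = S B x := by
        have h3 : S B x = ∑' i, B.indicator (fun i => (x i) ^ 2) (σ i) := (σ.tsum_eq _).symm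
        rw [h3]
        refine tsum_congr fun i => ?_
        by_cases hi : σ i ∈ B
        · rw [Set.indicator_of_mem hi, Set.indicator_of_mem (Set.mem_preimage.2 hi), hg]
        · rw [Set.indicator_of_notMem hi,
            Set.indicator_of_notMem (s := σ ⁻¹' B) (a := i) (fun h => hi h)]
      rw [this]) (e 0)
    have h2 : g.symm (e 0) = e 0 := by
      ext i
      rw [hg, e_apply, e_apply]
      have : σ i = 0 ↔ i = 0 := by
        rw [← hσ, σ.injective.eq_iff, hσ]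
      simp only [this]
    show P (LA B) (e 0) = P (LA (σ ⁻¹' B)) (e 0)
    rw [h1, h2]
  have m_good : ∀ {A B : Set ℕ}, Good A → Good B → m A = m B := by
    intro A B hA hB
    obtain ⟨σ, h0, h1⟩ := exists_perm_sets hA.inf hA.inf' hB.inf hB.inf' hA.zero hB.zero
    rw [m_perm σ B h0, h1]
  -- the rank one functions
  have hin : ∀ u : H, ‖u‖ = 1 → ‖(innerSL ℝ u : H →L[ℝ] ℝ)‖ ≤ 1 := by
    intro u hu
    rw [innerSL_apply_norm, hu]
  set R : ∀ u : H, ‖u‖ = 1 → Lip0 H (0 : H) := fun u hu => L u (innerSL ℝ u) hu.le (hin u hu) with hR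
  have R_fn : ∀ u hu x, (R u hu).fn x = ⟪u, x⟫_ℝ * ⟪u, x⟫_ℝ ^ 2 / ‖x‖ ^ 2 := by
    intro u hu x
    rw [hR, L_fn, innerSL_apply_apply, Real.norm_eq_abs, sq_abs]
  have hLR : LA {0} = R (e 0) (norm_e 0) := by
    apply Lip0.ext
    intro x
    rw [LA_fn, R_fn (e 0) (norm_e 0), S_singleton, inner_e]
  have R_inv : ∀ (g : H ≃ₗᵢ[ℝ] H), g.symm = g → ∀ (u w : H) (hu : ‖u‖ = 1) (hw : ‖w‖ = 1),
      g u = w → ∀ x, P (R w hw) x = P (R u hu) (g x) := by
    intro g hg u w hu hw huw x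
    have h1 := hP2 g (R u hu) (R w hw) (by
      intro x
      rw [hg, R_fn w hw, R_fn u hu, g.norm_map]
      have : ⟪u, g x⟫_ℝ = ⟪w, x⟫_ℝ := by
        have h2 : g (g x) = x := by
          conv_lhs => rw [← hg]
          rw [hg]
          have := g.symm_apply_apply x
          rwa [hg] at this
        rw [← g.inner_map_map u (g x), h2, huw]
      rw [this]) x
    rwa [hg] at h1
  have h01 : ⟪e 0, e 1⟫_ℝ = 0 := by rw [inner_e, e_apply]; simp
  have h10 : ⟪e 1, e 0⟫_ℝ = 0 := by rw [inner_e, e_apply]; simp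
  -- the reflection in the coordinate hyperplane
  set s : H ≃ₗᵢ[ℝ] H := Submodule.reflection (ℝ ∙ (e 1))ᗮ with hs
  have hss : s.symm = s := Submodule.reflection_symm
  have hs1 : s (e 1) = - e 1 := Submodule.reflection_orthogonalComplement_singleton_eq_neg (e 1)
  have hs0 : s (e 0) = e 0 := by
    apply Submodule.reflection_mem_subspace_eq_self
    rw [Submodule.mem_orthogonal_singleton_iff_inner_right]
    exact h10
  set a : ℝ := m {0} with ha
  have haR : P (R (e 0) (norm_e 0)) (e 0) = a := by rw [ha, ← hLR]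
  have hc : P (R (e 0) (norm_e 0)) (e 1) = 0 := by
    have := R_inv s hss (e 0) (e 0) (norm_e 0) (norm_e 0) hs0 (e 1)
    rw [hs1, map_neg] at this
    linarith
  set r : ℝ := (√2)⁻¹ with hr
  have hr2 : r ^ 2 = 1 / 2 := by
    rw [hr, inv_pow, Real.sq_sqrt (by norm_num)]; norm_num
  have hrpos : 0 < r := by positivity
  have hnorm : ∀ t : ℝ, t ^ 2 = 1 → ‖r • (e 0 + t • e 1)‖ = 1 := by
    intro t ht
    have h1 : ‖r • (e 0 + t • e 1)‖ ^ 2 = 1 := by
      rw [norm_smul, mul_pow, Real.norm_eq_abs, sq_abs, hr2, @norm_add_sq_real, norm_smul,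
        inner_smul_right, h01, norm_e, norm_e, Real.norm_eq_abs, mul_pow, sq_abs, ht]
      norm_num
    have h2 := norm_nonneg (r • (e 0 + t • e 1))
    nlinarith
  set u : H := r • (e 0 + (1 : ℝ) • e 1) with hu
  set v : H := r • (e 0 + (-1 : ℝ) • e 1) with hv
  have hun : ‖u‖ = 1 := hnorm 1 (by norm_num)
  have hvn : ‖v‖ = 1 := hnorm (-1) (by norm_num)
  set ρ : H ≃ₗᵢ[ℝ] H := Submodule.reflection (ℝ ∙ (e 0 - u))ᗮ with hρ
  have hρs : ρ.symm = ρ := Submodule.reflection_symm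
  have hρ0 : ρ (e 0) = u := Submodule.reflection_sub (by rw [norm_e, hun])
  have hsu : s u = v := by
    rw [hu, hv, map_smul, map_add, map_smul, hs0, hs1]
    simp
  have hPu : P (R u hun) (e 0) = r * a := by
    rw [R_inv ρ hρs (e 0) u (norm_e 0) hun hρ0 (e 0), hρ0, hu, map_smul, map_add, map_smul, hc,
      haR]
    simp
  have hPv : P (R v hvn) (e 0) = r * a := by
    rw [R_inv s hss u v hun hvn hsu (e 0), hs0, hPu]
  -- polarization
  have hpol : R u hun + R v hvn = r • (LA {0} + (3 : ℝ) • LA {1}) := by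
    apply Lip0.ext
    intro x
    rw [Lip0.fn_add, Lip0.fn_smul, Lip0.fn_add, Lip0.fn_smul, R_fn u hun, R_fn v hvn, LA_fn, LA_fn,
      S_singleton, S_singleton]
    have e1 : ⟪u, x⟫_ℝ = r * (x 0 + x 1) := by
      rw [hu, real_inner_smul_left, inner_add_left, real_inner_smul_left, inner_e, inner_e]; ring
    have e2 : ⟪v, x⟫_ℝ = r * (x 0 - x 1) := by
      rw [hv, real_inner_smul_left, inner_add_left, real_inner_smul_left, inner_e, inner_e]; ring
    rw [e1, e2]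
    have e3 : r * (x 0 + x 1) * (r * (x 0 + x 1)) ^ 2 / ‖x‖ ^ 2
        + r * (x 0 - x 1) * (r * (x 0 - x 1)) ^ 2 / ‖x‖ ^ 2
        = r * (r ^ 2 * 2) * (x 0 * x 0 ^ 2 / ‖x‖ ^ 2 + 3 * (x 0 * x 1 ^ 2 / ‖x‖ ^ 2)) := by ring
    rw [e3, hr2]; ring
  have hrel : a = 3 * m {1} := by
    have h1 : P (R u hun + R v hvn) (e 0) = P (r • (LA {0} + (3 : ℝ) • LA {1})) (e 0) := by
      rw [hpol]
    rw [map_add, map_smul, map_add, map_smul] at h1
    have h2 : P (R u hun) (e 0) + P (R v hvn) (e 0)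
        = r * (P (LA {0}) (e 0) + 3 * P (LA {1}) (e 0)) := h1
    rw [hPu, hPv] at h2
    have h3 : r * (2 * a) = r * (a + 3 * m {1}) := by
      have : P (LA {0}) (e 0) = a := rfl
      rw [this] at h2
      show r * (2 * a) = r * (a + 3 * P (LA {1}) (e 0))
      linarith
    have h4 := mul_left_cancel₀ hrpos.ne' h3
    linarith
  -- the paradoxical decomposition
  set A : Set ℕ := {n | n % 3 = 1} with hA
  set B : Set ℕ := {n | n % 3 = 2} with hB
  set C : Set ℕ := {n | n % 3 = 0 ∧ n ≠ 0} with hC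
  have infA : A.Infinite := Set.infinite_of_injective_forall_mem (f := fun n : ℕ => 3 * n + 1)
    (fun x y h => by simpa using h) (fun n => by show (3 * n + 1) % 3 = 1; omega)
  have infB : B.Infinite := Set.infinite_of_injective_forall_mem (f := fun n : ℕ => 3 * n + 2)
    (fun x y h => by simpa using h) (fun n => by show (3 * n + 2) % 3 = 2; omega)
  have infC : C.Infinite := Set.infinite_of_injective_forall_mem (f := fun n : ℕ => 3 * n + 3)
    (fun x y h => by simpa using h)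
    (fun n => ⟨by show (3 * n + 3) % 3 = 0; omega, by show 3 * n + 3 ≠ 0; omega⟩)
  have gA : Good A := ⟨infA, infB.mono fun n (h : n % 3 = 2) (h' : n % 3 = 1) => by omega,
    fun h => by simp [hA] at h⟩
  have gB : Good B := ⟨infB, infA.mono fun n (h : n % 3 = 1) (h' : n % 3 = 2) => by omega,
    fun h => by simp [hB] at h⟩
  have gC : Good C := ⟨infC, infA.mono fun n (h : n % 3 = 1) (h' : n % 3 = 0 ∧ n ≠ 0) => by omega,
    fun h => h.2 rfl⟩
  have gAB : Good (A ∪ B) := ⟨infA.mono Set.subset_union_left,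
    infC.mono fun n (h : n % 3 = 0 ∧ n ≠ 0) (h' : n % 3 = 1 ∨ n % 3 = 2) => by omega,
    fun h => by
      rcases h with h | h
      · exact gA.zero h
      · exact gB.zero h⟩
  have gC1 : Good (C ∪ {1}) := ⟨infC.mono Set.subset_union_left,
    infB.mono fun n (h : n % 3 = 2) (h' : (n % 3 = 0 ∧ n ≠ 0) ∨ n = 1) => by omega,
    fun h => by
      rcases h with h | h
      · exact gC.zero h
      · simp at h⟩
  have dAB : Disjoint A B := Set.disjoint_left.2 fun n (h : n % 3 = 1) (h' : n % 3 = 2) => by omega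
  have dC1 : Disjoint C {1} := Set.disjoint_left.2 fun n (h : n % 3 = 0 ∧ n ≠ 0) (h' : n = 1) => by
    omega
  have dABC : Disjoint (A ∪ B) C := Set.disjoint_left.2
    fun n (h : n % 3 = 1 ∨ n % 3 = 2) (h' : n % 3 = 0 ∧ n ≠ 0) => by omega
  have d0 : Disjoint ({0} : Set ℕ) ((A ∪ B) ∪ C) := Set.disjoint_left.2
    fun n (h : n = 0) (h' : (n % 3 = 1 ∨ n % 3 = 2) ∨ (n % 3 = 0 ∧ n ≠ 0)) => by omega
  have hun : (Set.univ : Set ℕ) = {0} ∪ ((A ∪ B) ∪ C) := by
    ext n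
    simp only [Set.mem_univ, Set.mem_union, Set.mem_singleton_iff, true_iff, hA, hB, hC,
      Set.mem_ofPred_eq]
    omega
  have t1 : m (A ∪ B) = m A + m B := m_union dAB
  have t2 : m (A ∪ B) = m A := m_good gAB gA
  have t3 : m B = m A := m_good gB gA
  have t4 : m C = m A := m_good gC gA
  have t5 : m (C ∪ {1}) = m C + m {1} := m_union dC1
  have t6 : m (C ∪ {1}) = m A := m_good gC1 gA
  have t7 : m Set.univ = m {0} + (m (A ∪ B) + m C) := by
    rw [hun, m_union d0, m_union dABC]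
  have t8 : m {0} = a := rfl
  rw [m_univ] at t7
  linarith

end Main

/-- **Theorem.** The Hilbert space `ℓ_2`, with the natural action of the group of its linear
isometries, fails the equivariant dual lifting property. -/
theorem result : ¬ HasEquivariantDualLifting (isometryAction (lp (fun _ : ℕ => ℝ) 2)) := by
  rintro ⟨P, hP1, hP2⟩
  exact main P hP1 fun g f f' h x => hP2 g f f' h x

end Pool.Agent.Results.MP_6bd626_an.NoEquivariantProjection
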